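import Pool.Agent.Helper83.EIN2.Goals

/-!
# Project EIN2 (MP_06d934_gt), packet LLB: bounds in the chart `LL`
-/

set_option autoImplicit false

namespace Pool.Agent.Helper88.EIN2

open Pool.Agent.Helper83.EIN Pool.Agent.Helper83.EIN2

/-- the factor `κ` -/
theorem kap {β₀ : ℝ} (h0 : 0 < β₀) : ∃ r > 0, ∀ β t w y z : ℝ, |β - β₀| < r → |t| < r →
    |w - 1| < r → |y - β₀| < r → |z - (1 + β₀)| < r →
    1 + β₀ / (1 + β₀) < (1 - t) * ((1 - β) * ((y - w + z) / (2 * w * z)) +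
      β * ((w + y + z) / (2 * w * y))) := by
  have hc : ContinuousAt (fun p : ℝ × ℝ × ℝ × ℝ × ℝ ↦ (1 - p.2.1) *
      ((1 - p.1) * ((p.2.2.2.1 - p.2.2.1 + p.2.2.2.2) / (2 * p.2.2.1 * p.2.2.2.2)) +
      p.1 * ((p.2.2.1 + p.2.2.2.1 + p.2.2.2.2) / (2 * p.2.2.1 * p.2.2.2.1))))
      (β₀, 0, 1, β₀, 1 + β₀) := by
    refine ContinuousAt.mul (by fun_prop) (ContinuousAt.add
      (ContinuousAt.mul (by fun_prop) (ContinuousAt.div (by fun_prop) (by fun_prop) ?_))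
      (ContinuousAt.mul (by fun_prop) (ContinuousAt.div (by fun_prop) (by fun_prop) ?_)))
    · have : (0 : ℝ) < 2 * 1 * (1 + β₀) := by positivity
      exact this.ne'
    · have : (0 : ℝ) < 2 * 1 * β₀ := by positivity
      exact this.ne'
  have hval : 1 + β₀ / (1 + β₀) < (1 - 0) * ((1 - β₀) * ((β₀ - 1 + (1 + β₀)) / (2 * 1 * (1 + β₀))) +
      β₀ * ((1 + β₀ + (1 + β₀)) / (2 * 1 * β₀))) := by
    have e : (1 - 0) * ((1 - β₀) * ((β₀ - 1 + (1 + β₀)) / (2 * 1 * (1 + β₀))) +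
        β₀ * ((1 + β₀ + (1 + β₀)) / (2 * 1 * β₀))) = 1 + β₀ / (1 + β₀) + β₀ / (1 + β₀) := by
      have h1 : (1 + β₀) ≠ 0 := by positivity
      field_simp
      ring
    rw [e]
    have : 0 < β₀ / (1 + β₀) := by positivity
    linarith
  have he := hc.eventually (lt_mem_nhds hval)
  obtain ⟨r, hr, h⟩ := Metric.eventually_nhds_iff.1 he
  refine ⟨r, hr, fun β t w y z h1 h2 h3 h4 h5 ↦ ?_⟩
  refine h (y := (β, t, w, y, z)) ?_
  rw [Prod.dist_eq, Prod.dist_eq, Prod.dist_eq, Prod.dist_eq]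
  simp only [Real.dist_eq, sub_zero]
  exact max_lt h1 (max_lt h2 (max_lt h3 (max_lt h4 h5)))

/-- one block: the sides `w, y, z`, `q = t b (A - B)`, `s = t (a (1 - W₀) + b (1 - W₁))` -/
theorem block {β₀ β t w y z q s : ℝ} (h0 : 0 < β₀) (hw : 0 < w) (hy : 0 < y) (hz : 0 < z)
    (hF : 0 ≤ w + y - z)
    (hk : 1 + β₀ / (1 + β₀) < (1 - t) * ((1 - β) * ((y - w + z) / (2 * w * z)) +
      β * ((w + y + z) / (2 * w * y))))
    (he : w + y - z = (1 - t) * ((1 - β) * (1 - cs w z y) + β * (1 + cs w y z)) - q + s)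
    (hs : 0 ≤ s) : β₀ / (1 + β₀) * (w + y - z) ≤ q := by
  have e1 : 1 - cs w z y = (w + y - z) * ((y - w + z) / (2 * w * z)) := by
    rw [one_sub_cs hw hz]
    ring
  have e2 : 1 + cs w y z = (w + y - z) * ((w + y + z) / (2 * w * y)) := by
    rw [one_add_cs hw hy]
    ring
  rw [e1, e2] at he
  have h1 : q = ((1 - t) * ((1 - β) * ((y - w + z) / (2 * w * z)) +
      β * ((w + y + z) / (2 * w * y))) - 1) * (w + y - z) + s := by
    linear_combination he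
  rw [h1]
  have h2 := mul_le_mul_of_nonneg_right hk.le hF
  linarith

/-- the sizes of the three cosines of a block -/
theorem sizes {β₀ w y z F : ℝ} (h0 : 0 < β₀) (h1 : β₀ < 1) (hw : 1 / 2 ≤ w) (hy : β₀ / 2 ≤ y)
    (hz : 1 / 2 ≤ z) (hw2 : w ≤ 2) (hy2 : y ≤ 2) (hz2 : z ≤ 2) (hF : 0 ≤ F)
    (hFe : F = w + y - z) :
    1 - cs y z w ≤ 12 / β₀ * F ∧ 1 + cs w y z ≤ 12 / β₀ * F ∧ 1 - cs w z y ≤ 12 / β₀ * F := by
  have pw : 0 < w := by linarith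
  have py : 0 < y := by linarith
  have pz : 0 < z := by linarith
  have e0 : 1 - cs y z w = (w - y + z) / (2 * y * z) * F := by
    rw [one_sub_cs py pz, hFe]
    ring
  have e1 : 1 - cs w z y = (y - w + z) / (2 * w * z) * F := by
    rw [one_sub_cs pw pz, hFe]
    ring
  have e2 : 1 + cs w y z = (w + y + z) / (2 * w * y) * F := by
    rw [one_add_cs pw py, hFe]
    ring
  have k1 : β₀ / 2 * (1 / 2) ≤ y * z := mul_le_mul hy hz (by norm_num) py.le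
  have k2 : 1 / 2 * (1 / 2) ≤ w * z := mul_le_mul hw hz (by norm_num) pw.le
  have k3 : 1 / 2 * (β₀ / 2) ≤ w * y := mul_le_mul hw hy (by positivity) pw.le
  rw [e0, e1, e2]
  refine ⟨mul_le_mul_of_nonneg_right ?_ hF, mul_le_mul_of_nonneg_right ?_ hF,
    mul_le_mul_of_nonneg_right ?_ hF⟩
  · rw [div_le_div_iff₀ (by positivity) h0]
    nlinarith
  · rw [div_le_div_iff₀ (by positivity) h0]
    nlinarith
  · rw [div_le_div_iff₀ (by positivity) h0]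
    nlinarith

/-- **LLB**. -/
theorem llb (hBD : BD) (hNB : NB) : LLB := by
  intro a₀ β₀ ha0 ha1 hb0 hb1
  obtain ⟨δ₁, hδ₁, ε₁, hε₁, C₁, H⟩ := hNB a₀ β₀ ![0, 1, β₀, 1 + β₀, β₀, 1 + β₀] ha0 ha1 hb0 hb1 rfl
    (by
      intro i hi
      fin_cases i
      · exact absurd rfl hi
      · simp
      · simpa using hb0
      · simp; linarith
      · simpa using hb0
      · simp; linarith)
  obtain ⟨r, hr, hk⟩ := kap hb0
  refine ⟨min δ₁ (min r (min (1 / 2) (β₀ / 2))), by positivity,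
    min ε₁ (min r (min (1 / 4) (min (min (a₀ / 2) ((1 - a₀) / 2)) (min (β₀ / 2) ((1 - β₀) / 2))))), ?_,
    1 + 2 * |C₁| + 12 / β₀ * (2 * |C₁| / (β₀ / (1 + β₀))), ?_⟩
  · have : 0 < 1 - a₀ := by linarith
    have : 0 < 1 - β₀ := by linarith
    positivity
  intro a β t v hN hS hv
  have hN1 : Near2 a₀ β₀ ε₁ a β t := hN.mono (min_le_left _ _)
  have hNr : Near2 a₀ β₀ r a β t := hN.mono ((min_le_right _ _).trans (min_le_left _ _))
  have hN4 : Near2 a₀ β₀ (1 / 4) a β t :=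
    hN.mono ((min_le_right _ _).trans ((min_le_right _ _).trans (min_le_left _ _)))
  have hNa : Near2 a₀ β₀ (min (a₀ / 2) ((1 - a₀) / 2)) a β t :=
    hN.mono ((min_le_right _ _).trans ((min_le_right _ _).trans ((min_le_right _ _).trans
      (min_le_left _ _))))
  have hNb : Near2 a₀ β₀ (min (β₀ / 2) ((1 - β₀) / 2)) a β t :=
    hN.mono ((min_le_right _ _).trans ((min_le_right _ _).trans ((min_le_right _ _).trans
      (min_le_right _ _))))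
  have ht := hN.t0
  have ht4 := hN4.t1
  have qa1 := abs_lt.1 (hNa.ha.trans_le (min_le_left _ _))
  have qa2 := abs_lt.1 (hNa.ha.trans_le (min_le_right _ _))
  have qb1 := abs_lt.1 (hNb.hb.trans_le (min_le_left _ _))
  have qb2 := abs_lt.1 (hNb.hb.trans_le (min_le_right _ _))
  have ha : 0 < a := by linarith [qa1.1]
  have ha' : 0 < 1 - a := by linarith [qa2.2]
  have hβ : 0 < β := by linarith [qb1.1]
  have hβ' : 0 < 1 - β := by linarith [qb2.2]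
  have Bd := hBD a β t v ha (by linarith) hβ (by linarith) ht (by linarith) hS
  have hv1 : ∀ i, |v i - (![0, 1, β₀, 1 + β₀, β₀, 1 + β₀] : Fin 6 → ℝ) i| < δ₁ :=
    fun i ↦ (hv i).trans_le (min_le_left _ _)
  have hvr : ∀ i, |v i - (![0, 1, β₀, 1 + β₀, β₀, 1 + β₀] : Fin 6 → ℝ) i| < r :=
    fun i ↦ (hv i).trans_le ((min_le_right _ _).trans (min_le_left _ _))
  have hvh : ∀ i, |v i - (![0, 1, β₀, 1 + β₀, β₀, 1 + β₀] : Fin 6 → ℝ) i| < 1 / 2 :=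
    fun i ↦ (hv i).trans_le ((min_le_right _ _).trans ((min_le_right _ _).trans (min_le_left _ _)))
  have hvb : ∀ i, |v i - (![0, 1, β₀, 1 + β₀, β₀, 1 + β₀] : Fin 6 → ℝ) i| < β₀ / 2 :=
    fun i ↦ (hv i).trans_le ((min_le_right _ _).trans ((min_le_right _ _).trans (min_le_right _ _)))
  have r1 : |v 1 - 1| < r := hvr 1
  have r2 : |v 2 - β₀| < r := hvr 2
  have r3 : |v 3 - (1 + β₀)| < r := hvr 3
  have r4 : |v 4 - β₀| < r := hvr 4
  have r5 : |v 5 - (1 + β₀)| < r := hvr 5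
  have g1 : |v 1 - 1| < 1 / 2 := hvh 1
  have g3 : |v 3 - (1 + β₀)| < 1 / 2 := hvh 3
  have g5 : |v 5 - (1 + β₀)| < 1 / 2 := hvh 5
  have g2 : |v 2 - β₀| < β₀ / 2 := hvb 2
  have g4 : |v 4 - β₀| < β₀ / 2 := hvb 4
  have l1 : 1 / 2 ≤ v 1 := by linarith [(abs_lt.1 g1).1]
  have l3 : 1 / 2 ≤ v 3 := by linarith [(abs_lt.1 g3).1]
  have l5 : 1 / 2 ≤ v 5 := by linarith [(abs_lt.1 g5).1]
  have l2 : β₀ / 2 ≤ v 2 := by linarith [(abs_lt.1 g2).1]
  have l4 : β₀ / 2 ≤ v 4 := by linarith [(abs_lt.1 g4).1]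
  have w2 : v 1 ≤ 2 := by linarith [Bd.u1]
  obtain ⟨-, -, n3, n4, n5, n6, -, -, n9, n10⟩ := H a β t v hN1 hS hv1
  have htr : |t| < r := by rw [abs_of_pos ht]; exact hNr.t1
  have p := hS.pos
  -- the cosines are in `[-1, 1]`
  obtain ⟨s01, s02, s03⟩ := Bd.s0
  obtain ⟨s11, s12, s13⟩ := Bd.s1
  have F0 : 0 ≤ v 1 + v 2 - v 3 := by linarith
  have F1 : 0 ≤ v 1 + v 4 - v 5 := by linarith
  have W0 : cs (v 2) (v 3) (v 1) ≤ 1 := cs_le (p 2) (p 3) (p 1) Bd.s0.rot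
  have W1 : cs (v 4) (v 5) (v 1) ≤ 1 := cs_le (p 4) (p 5) (p 1) Bd.s1.rot
  have hs : 0 ≤ t * (a * (1 - cs (v 2) (v 3) (v 1)) + (1 - a) * (1 - cs (v 4) (v 5) (v 1))) := by
    have h1 := mul_nonneg ha.le (sub_nonneg.2 W0)
    have h2 := mul_nonneg ha'.le (sub_nonneg.2 W1)
    exact mul_nonneg ht.le (add_nonneg h1 h2)
  have b0 := block (q := t * (1 - a) * (cs (v 0) (v 4) (v 2) - cs (v 0) (v 5) (v 3)))
    (s := t * (a * (1 - cs (v 2) (v 3) (v 1)) + (1 - a) * (1 - cs (v 4) (v 5) (v 1))))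
    hb0 (p 1) (p 2) (p 3) F0
    (hk β t (v 1) (v 2) (v 3) hNr.hb htr r1 r2 r3) (by
      linear_combination hS.e1 + hS.e2 - hS.e3) hs
  have b1 := block (q := t * a * (cs (v 0) (v 2) (v 4) - cs (v 0) (v 3) (v 5)))
    (s := t * (a * (1 - cs (v 2) (v 3) (v 1)) + (1 - a) * (1 - cs (v 4) (v 5) (v 1))))
    hb0 (p 1) (p 4) (p 5) F1
    (hk β t (v 1) (v 4) (v 5) hNr.hb htr r1 r4 r5) (by
      linear_combination hS.e1 + hS.e4 - hS.e5) hs
  have hcpos : 0 < β₀ / (1 + β₀) := by positivity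
  have d0 : 0 ≤ cs (v 0) (v 4) (v 2) - cs (v 0) (v 5) (v 3) := by
    have h1 : 0 ≤ (t * (1 - a)) * (cs (v 0) (v 4) (v 2) - cs (v 0) (v 5) (v 3)) :=
      (mul_nonneg hcpos.le F0).trans b0
    exact nonneg_of_mul_nonneg_right h1 (mul_pos ht ha')
  have d1 : 0 ≤ cs (v 0) (v 2) (v 4) - cs (v 0) (v 3) (v 5) := by
    have h1 : 0 ≤ (t * a) * (cs (v 0) (v 2) (v 4) - cs (v 0) (v 3) (v 5)) :=
      (mul_nonneg hcpos.le F1).trans b1
    exact nonneg_of_mul_nonneg_right h1 (mul_pos ht ha)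
  have hsum : (cs (v 0) (v 4) (v 2) - cs (v 0) (v 5) (v 3)) +
      (cs (v 0) (v 2) (v 4) - cs (v 0) (v 3) (v 5)) ≤ 2 * |C₁| * t := by
    have h1 := (abs_le.1 n9).2
    have h2 := (abs_le.1 n10).1
    have h3 : C₁ * t ≤ |C₁| * t := mul_le_mul_of_nonneg_right (le_abs_self _) ht.le
    linarith
  have d0' : cs (v 0) (v 4) (v 2) - cs (v 0) (v 5) (v 3) ≤ 2 * |C₁| * t := by linarith
  have d1' : cs (v 0) (v 2) (v 4) - cs (v 0) (v 3) (v 5) ≤ 2 * |C₁| * t := by linarith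
  have hC0 : 0 ≤ |C₁| := abs_nonneg _
  have f0 : v 1 + v 2 - v 3 ≤ 2 * |C₁| / (β₀ / (1 + β₀)) * t ^ 2 := by
    have h1 : t * (1 - a) * (cs (v 0) (v 4) (v 2) - cs (v 0) (v 5) (v 3)) ≤ t * 1 * (2 * |C₁| * t) := by
      refine mul_le_mul ?_ d0' d0 (by positivity)
      exact mul_le_mul_of_nonneg_left (by linarith) ht.le
    rw [div_mul_eq_mul_div, le_div_iff₀ hcpos]
    linarith
  have f1 : v 1 + v 4 - v 5 ≤ 2 * |C₁| / (β₀ / (1 + β₀)) * t ^ 2 := by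
    have h1 : t * a * (cs (v 0) (v 2) (v 4) - cs (v 0) (v 3) (v 5)) ≤ t * 1 * (2 * |C₁| * t) := by
      refine mul_le_mul ?_ d1' d1 (by positivity)
      exact mul_le_mul_of_nonneg_left (by linarith) ht.le
    rw [div_mul_eq_mul_div, le_div_iff₀ hcpos]
    linarith
  obtain ⟨x0, x1, x2⟩ := sizes hb0 hb1 l1 l2 l3 w2 Bd.u2 Bd.u3 F0 rfl
  obtain ⟨y0, y1, y2⟩ := sizes hb0 hb1 l1 l4 l5 w2 Bd.u4 Bd.u5 F1 rfl
  have hK : 0 < 12 / β₀ := by positivity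
  have m0 := mul_le_mul_of_nonneg_left f0 hK.le
  have m1 := mul_le_mul_of_nonneg_left f1 hK.le
  have C2 : 0 ≤ 1 + cs (v 1) (v 2) (v 3) := by
    have := le_cs (p 1) (p 2) (p 3) Bd.s0
    linarith
  have C2' : 0 ≤ 1 + cs (v 1) (v 4) (v 5) := by
    have := le_cs (p 1) (p 4) (p 5) Bd.s1
    linarith
  have C3 : 0 ≤ 1 - cs (v 1) (v 3) (v 2) := by
    have := cs_le (p 1) (p 3) (p 2) Bd.s0.rot.rot.swap
    linarith
  have C3' : 0 ≤ 1 - cs (v 1) (v 5) (v 4) := by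
    have := cs_le (p 1) (p 5) (p 4) Bd.s1.rot.rot.swap
    linarith
  have t2 : 0 < t ^ 2 := by positivity
  have hX : 0 ≤ 12 / β₀ * (2 * |C₁| / (β₀ / (1 + β₀))) := by positivity
  have big : ∀ x : ℝ, 0 ≤ x → x ≤ 12 / β₀ * (2 * |C₁| / (β₀ / (1 + β₀)) * t ^ 2) →
      |x / t ^ 2| ≤ 1 + 2 * |C₁| + 12 / β₀ * (2 * |C₁| / (β₀ / (1 + β₀))) := by
    intro x hx0 hx
    rw [abs_of_nonneg (div_nonneg hx0 t2.le), div_le_iff₀ t2]
    have h1 : 0 ≤ (1 + 2 * |C₁|) * t ^ 2 := by positivity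
    linarith
  have mid : ∀ x : ℝ, 0 ≤ x → x ≤ C₁ * t ^ 2 →
      |x / t ^ 2| ≤ 1 + 2 * |C₁| + 12 / β₀ * (2 * |C₁| / (β₀ / (1 + β₀))) := by
    intro x hx0 hx
    rw [abs_of_nonneg (div_nonneg hx0 t2.le)]
    have h1 : x / t ^ 2 ≤ C₁ := by rwa [div_le_iff₀ t2]
    have h2 := le_abs_self C₁
    linarith
  have lin : ∀ x : ℝ, |x| ≤ 2 * |C₁| * t →
      |x / t| ≤ 1 + 2 * |C₁| + 12 / β₀ * (2 * |C₁| / (β₀ / (1 + β₀))) := by
    intro x hx
    rw [abs_div, abs_of_pos ht, div_le_iff₀ ht]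
    have h1 : 0 ≤ (1 + 12 / β₀ * (2 * |C₁| / (β₀ / (1 + β₀)))) * t := by positivity
    linarith
  have hC1t : C₁ * t ≤ 2 * |C₁| * t :=
    mul_le_mul_of_nonneg_right (by linarith [le_abs_self C₁]) ht.le
  intro i
  fin_cases i
  · show |cs (v 0) (v 4) (v 2)| ≤ _
    have h1 := cs_le (p 0) (p 4) (p 2) Bd.t2.rot.rot.swap
    have h2 := le_cs (p 0) (p 4) (p 2) Bd.t2.rot.rot.swap
    have h3 : |cs (v 0) (v 4) (v 2)| ≤ 1 := abs_le.2 ⟨h2, h1⟩
    linarith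
  · show |(cs (v 0) (v 4) (v 2) - cs (v 0) (v 5) (v 3)) / t| ≤ _
    exact lin _ (by rw [abs_of_nonneg d0]; exact d0')
  · exact big _ (by linarith) (by linarith)
  · exact big _ C2 (by linarith)
  · exact big _ C3 (by linarith)
  · exact big _ (by linarith) (by linarith)
  · exact big _ C2' (by linarith)
  · exact big _ C3' (by linarith)
  · exact mid _ n3 n4
  · exact mid _ n5 n6
  · exact lin _ (n9.trans hC1t)
  · exact lin _ (n10.trans hC1t)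

end Pool.Agent.Helper88.EIN2
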